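import Pool.Agent.TH942.ES.StarExt
import Pool.Agent.TH942.ES.NF

/-!
# Continuation, zeros, order and leading coefficient of `L(E/K, s)` in terms of finite sums

`K` is any number field and `E : y² = x³ + a x + b`, `a, b ∈ 𝓞_K`, any elliptic curve over `K`. For a
prime `v` of `K` which does not divide `6 (4 a³ + 27 b²)` let `q_v` be the norm, `N_v` the number of
affine points modulo `v` and `1 - (q_v - N_v) X + q_v X² = (1 - α_v X) (1 - β_v X)`. The incomplete
`L`-series of `E` is the product of the `(1 - (q_v - N_v) q_v^{-s} + q_v^{1 - 2s})⁻¹`, for `Re s > 3/2`.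

In Q1 one asks for the continuation of this series, which is not known for general `K`; so the order at
`s = 1` is not even defined. Here NOTHING is assumed about the continuation. For `ρ > 1`, `ρ' > ρ` let

`S_{ρ,ρ'}(Y) = ∑ w_{1/ρ}(k log q_v / log Y) (α_v^k + β_v^k) / (k q_v^k)`,

the FINITE sum over the pairs `(v, k)`, `k ≥ 1`, with `q_v^k ≤ exp((log Y)^ρ')`, where `w_α` is the
Mittag-Leffler weight `w_α(u) = (2π)⁻¹ ∫ Re (exp(z - u z^α) / z) dt`, `z = 1 + i t`.

Theorem. Let `r ≥ 0` be an integer (for instance the rank of `E(K)`), `A > 0` and `ρ₀ ≥ 1`. Then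
`S_{ρ,ρ'}(Y) + r log log Y → log A - r γ / ρ` as `Y → ∞` for all `ρ' > ρ > ρ₀` if and only if the
`L`-series has a continuation `G` which is holomorphic and without zeros in the union of the half plane
`Re s > 3/2` and the sector `|arg (s - 1)| < π / (2 ρ₀)`, and `G(s) ∼ A (s - 1)^r` as `s → 1` in every
smaller sector.

For `ρ₀ = 1` the sector is the half plane `Re s > 1`: the existence of the continuation to `Re s > 1`, the
Riemann hypothesis (no zeros there), the order `r` and the leading coefficient `A` at the boundary point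
`s = 1` together are equivalent to the convergence of explicit finite sums of numbers of points. For
`ρ₀ > 1` only the zeros in a sector with vertex `1` matter, for `ρ₀ → ∞` only those near the real line.
Consequence (second part): for a continuation `F` to `Re s > 1` which is meromorphic at `1`, the limits
for all `ρ' > ρ > 1` hold if and only if `F` has no zeros with `Re s > 1`, the order `r` and the leading
coefficient `A` at `s = 1`.

For `K = ℚ` (where the continuation is known) such criteria with the sharp cut-off are due to Goldfeld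
(1982), Kuo and Murty, and Conrad (2005).
-/

set_option autoImplicit false

open IsDedekindDomain NumberField Filter Topology

namespace Pool.Agent.Results.MP_1a91b9_nt.ContinuationFromFiniteSums

variable {K : Type} [Field K] [NumberField K]

/-- The prime `v` does not divide `6 (4 a³ + 27 b²)`. -/
def Good (a b : 𝓞 K) (v : HeightOneSpectrum (𝓞 K)) : Prop :=
  6 * (4 * a ^ 3 + 27 * b ^ 2) ∉ v.asIdeal

/-- `q_v`, the number of elements of the residue field. -/
noncomputable def q (v : HeightOneSpectrum (𝓞 K)) : ℕ := Ideal.absNorm v.asIdeal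

/-- `N_v`, the number of affine points of `y² = x³ + a x + b` modulo `v`. -/
noncomputable def points (a b : 𝓞 K) (v : HeightOneSpectrum (𝓞 K)) : ℕ :=
  Nat.card {P : (𝓞 K ⧸ v.asIdeal) × (𝓞 K ⧸ v.asIdeal) //
    P.2 ^ 2 = P.1 ^ 3 + Ideal.Quotient.mk v.asIdeal a * P.1 + Ideal.Quotient.mk v.asIdeal b}

/-- The power sums `α_v ^ n + β_v ^ n`, where `1 - (q_v - N_v) X + q_v X² = (1 - α_v X) (1 - β_v X)`, by
the recursion. -/
noncomputable def powerSum (a b : 𝓞 K) (v : HeightOneSpectrum (𝓞 K)) : ℕ → ℝ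
  | 0 => 2
  | 1 => (q v : ℝ) - points a b v
  | n + 2 => ((q v : ℝ) - points a b v) * powerSum a b v (n + 1) - (q v : ℝ) * powerSum a b v n

/-- The Mittag-Leffler weight `w_α(u) = (2π)⁻¹ ∫ Re (exp (z - u z^α) / z) dt`, `z = 1 + it`. -/
noncomputable def weight (α u : ℝ) : ℝ :=
  (2 * Real.pi)⁻¹ * ∫ t : ℝ, (Complex.exp ((1 + t * Complex.I) -
    u * (1 + t * Complex.I) ^ (α : ℂ)) / (1 + t * Complex.I)).re

/-- The pairs `(v, k)`, `v` good and `k = x.2 + 1`, with `q_v ^ k ≤ exp((log Y)^ρ')`. -/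
def pairs (a b : 𝓞 K) (ρ' Y : ℝ) : Set ({v : HeightOneSpectrum (𝓞 K) // Good a b v} × ℕ) :=
  {x | (q x.1.1 : ℝ) ^ (x.2 + 1) ≤ Real.exp (Real.log Y ^ ρ')}

/-- `S_{ρ,ρ'}(Y)`, the sum over the finite set `pairs`, with `k = x.2 + 1`. -/
noncomputable def S (a b : 𝓞 K) (ρ ρ' Y : ℝ) : ℝ :=
  ∑ᶠ x ∈ pairs a b ρ' Y, weight ρ⁻¹ (((x.2 : ℝ) + 1) * Real.log (q x.1.1) / Real.log Y) *
    (powerSum a b x.1.1 (x.2 + 1) / (((x.2 : ℝ) + 1) * (q x.1.1 : ℝ) ^ (x.2 + 1)))

/-- `s` lies in the sector `|arg (s - 1)| < π / (2ρ)`, `s ≠ 1`; the half plane `Re s > 1` for `ρ = 1`. -/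
def InSector (ρ : ℝ) (s : ℂ) : Prop := s ≠ 1 ∧ |Complex.arg (s - 1)| < Real.pi / (2 * ρ)

/-- `G` is the incomplete `L`-series of `y² = x³ + a x + b` for `Re s > 3/2`. -/
def IsLSeries (a b : 𝓞 K) (G : ℂ → ℂ) : Prop :=
  ∀ s : ℂ, 3 / 2 < s.re → HasProd (fun v : {v : HeightOneSpectrum (𝓞 K) // Good a b v} =>
    (1 - ((q v.1 : ℂ) - points a b v.1) * (q v.1 : ℂ) ^ (-s) + (q v.1 : ℂ) ^ (1 - 2 * s))⁻¹) (G s)

/-! ### Translation to the imported files -/

section aux

open Pool.Agent.TH942.ES Pool.Agent.TH942.SL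
open Pool.Agent.H921R2.TatePole (nm two_le_nm)

variable {a b : 𝓞 K}

/-- the norms -/
noncomputable abbrev NN (a b : 𝓞 K) : {v : HeightOneSpectrum (𝓞 K) // GoodV a b v} → ℕ :=
  fun v => nm v.1

theorem trV_eq (v : {v : HeightOneSpectrum (𝓞 K) // GoodV a b v}) :
    ∑ i, zv (NN a b) (alV a b) v i = (((nm v.1 : ℝ) - ptsV a b v.1) / nm v.1 : ℝ) := by
  have hp2 : (2 : ℝ) ≤ nm v.1 := by exact_mod_cast two_le_nm v.1
  have h1 := sqrt_nm_pos v.1
  have h1c : ((√(nm v.1 : ℝ) : ℝ) : ℂ) ≠ 0 := by exact_mod_cast h1.ne'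
  have h2 : √(nm v.1 : ℝ) ^ 2 = nm v.1 := Real.sq_sqrt (by linarith)
  unfold zv alV
  rw [Fin.sum_univ_two]
  have e0 : rt (trV a b v.1) 0 + rt (trV a b v.1) 1 = ((2 * trV a b v.1 : ℝ) : ℂ) := by
    have e0 : rt (trV a b v.1) 0 = trV a b v.1 + √(1 - trV a b v.1 ^ 2) * Complex.I := rfl
    have e1 : rt (trV a b v.1) 1 = trV a b v.1 - √(1 - trV a b v.1 ^ 2) * Complex.I := rfl
    rw [e0, e1]
    push_cast
    ring
  rw [← add_div, e0, ← Complex.ofReal_div]
  congr 1
  unfold trV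
  nth_rewrite 5 [← h2]
  field_simp

theorem prodV_eq (v : {v : HeightOneSpectrum (𝓞 K) // GoodV a b v}) :
    zv (NN a b) (alV a b) v 0 * zv (NN a b) (alV a b) v 1 = ((1 / nm v.1 : ℝ) : ℂ) := by
  have hp2 : (2 : ℝ) ≤ nm v.1 := by exact_mod_cast two_le_nm v.1
  have h1 := sqrt_nm_pos v.1
  have h1c : ((√(nm v.1 : ℝ) : ℝ) : ℂ) ≠ 0 := by exact_mod_cast h1.ne'
  have h2 : ((√(nm v.1 : ℝ) : ℝ) : ℂ) ^ 2 = nm v.1 := by
    rw [← Complex.ofReal_pow, Real.sq_sqrt (by linarith)]
    push_cast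
    rfl
  unfold zv alV
  have ht := trV_abs v.2
  have h3 : 0 ≤ 1 - trV a b v.1 ^ 2 := by
    have := sq_le_one_iff_abs_le_one (trV a b v.1) |>.2 ht
    linarith
  have h4 : ((√(1 - trV a b v.1 ^ 2) : ℝ) : ℂ) ^ 2 = 1 - (trV a b v.1 : ℂ) ^ 2 := by
    rw [← Complex.ofReal_pow, Real.sq_sqrt h3]
    push_cast
    rfl
  have e0 : rt (trV a b v.1) 0 * rt (trV a b v.1) 1 = 1 := by
    have e0 : rt (trV a b v.1) 0 = trV a b v.1 + √(1 - trV a b v.1 ^ 2) * Complex.I := rfl
    have e1 : rt (trV a b v.1) 1 = trV a b v.1 - √(1 - trV a b v.1 ^ 2) * Complex.I := rfl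
    rw [e0, e1]
    have e2 : ((trV a b v.1 : ℂ) + √(1 - trV a b v.1 ^ 2) * Complex.I) *
        ((trV a b v.1 : ℂ) - √(1 - trV a b v.1 ^ 2) * Complex.I) =
        (trV a b v.1 : ℂ) ^ 2 - ((√(1 - trV a b v.1 ^ 2) : ℝ) : ℂ) ^ 2 * Complex.I ^ 2 := by ring
    rw [e2, h4, Complex.I_sq]
    ring
  rw [div_mul_div_comm, e0, ← sq, h2]
  push_cast
  rfl

theorem pow_eq (v : {v : HeightOneSpectrum (𝓞 K) // GoodV a b v}) (n : ℕ) :
    ∑ i, zv (NN a b) (alV a b) v i ^ n = ((powerSum a b v.1 n / (q v.1 : ℝ) ^ n : ℝ) : ℂ) := by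
  have hp2 : (2 : ℝ) ≤ nm v.1 := by exact_mod_cast two_le_nm v.1
  have hq : (q v.1 : ℝ) ≠ 0 := by
    have : (q v.1 : ℝ) = nm v.1 := rfl
    rw [this]
    linarith
  induction n using Nat.twoStepInduction with
  | zero =>
    rw [Fin.sum_univ_two, pow_zero, pow_zero, powerSum, pow_zero]
    norm_num
  | one =>
    simp only [pow_one, powerSum]
    rw [trV_eq]
    rfl
  | more n ih1 ih2 =>
    rw [Fin.sum_univ_two] at ih1 ih2 ⊢
    have h1 := trV_eq v
    rw [Fin.sum_univ_two] at h1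
    have h2 := prodV_eq v
    set x := zv (NN a b) (alV a b) v 0
    set y := zv (NN a b) (alV a b) v 1
    have e1 : x ^ (n + 2) + y ^ (n + 2) =
        (x + y) * (x ^ (n + 1) + y ^ (n + 1)) - (x * y) * (x ^ n + y ^ n) := by ring
    rw [e1, h1, h2, ih1, ih2, ← Complex.ofReal_mul, ← Complex.ofReal_mul, ← Complex.ofReal_sub]
    congr 1
    have e2 : (nm v.1 : ℝ) = q v.1 := rfl
    have e3 : (ptsV a b v.1 : ℝ) = points a b v.1 := rfl
    rw [e2, e3]
    simp only [powerSum]
    field_simp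
    ring

theorem hreal (v : {v : HeightOneSpectrum (𝓞 K) // GoodV a b v}) (k : ℕ) :
    (∑ i, zv (NN a b) (alV a b) v i ^ k).im = 0 := by
  rw [pow_eq, Complex.ofReal_im]

theorem S_eq (ρ ρ' Y : ℝ) : S a b ρ ρ' Y = StE (NN a b) (alV a b) ρ ρ' Y := by
  unfold S StE
  refine finsum_congr fun x => ?_
  refine finsum_congr_Prop rfl fun _ => ?_
  have e1 : weight = wml := rfl
  rw [e1]
  congr 1
  unfold cP
  rw [pow_eq, Complex.ofReal_re]
  have hp2 : (2 : ℝ) ≤ nm x.1.1 := by exact_mod_cast two_le_nm x.1.1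
  have hq : (q x.1.1 : ℝ) ≠ 0 := by
    have : (q x.1.1 : ℝ) = nm x.1.1 := rfl
    rw [this]
    linarith
  field_simp

theorem hasProd_iff (s : ℂ) (G : ℂ) :
    HasProd (fun v : {v : HeightOneSpectrum (𝓞 K) // Good a b v} =>
    (1 - ((q v.1 : ℂ) - points a b v.1) * (q v.1 : ℂ) ^ (-(1 + s)) +
      (q v.1 : ℂ) ^ (1 - 2 * (1 + s)))⁻¹) G ↔
    HasProd (fun v => ∏ i, (1 - zv (NN a b) (alV a b) v i * xv (NN a b) v s)⁻¹) G := by
  have h : (fun v : {v : HeightOneSpectrum (𝓞 K) // Good a b v} =>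
      (1 - ((q v.1 : ℂ) - points a b v.1) * (q v.1 : ℂ) ^ (-(1 + s)) +
      (q v.1 : ℂ) ^ (1 - 2 * (1 + s)))⁻¹) =
      (fun v => ∏ i, (1 - zv (NN a b) (alV a b) v i * xv (NN a b) v s)⁻¹) := by
    funext v
    have h1 := curve_factor (a := a) (b := b) v s
    exact h1.symm
  rw [h]
  exact Iff.rfl

theorem lseries_iff (G : ℂ → ℂ) : IsLSeries a b G ↔
    ∀ s : ℂ, 1 / 2 < s.re → G (1 + s) = LE (NN a b) (alV a b) s := by
  have E : Sys (NN a b) (alV a b) := curve_sys a b
  constructor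
  · intro h s hs
    have h1 := h (1 + s) (by rw [Complex.add_re, Complex.one_re]; linarith)
    rw [hasProd_iff] at h1
    rw [E.LE_eq hs]
    exact h1.unique (E.hasProd hs)
  · intro h s hs
    have h1 : 1 / 2 < (s - 1).re := by rw [Complex.sub_re, Complex.one_re]; linarith
    have h2 := h (s - 1) h1
    have h3 := (hasProd_iff (a := a) (b := b) (s - 1) (G s)).2
    have e1 : 1 + (s - 1) = s := by ring
    rw [e1] at h2 h3
    rw [h2] at h3 ⊢
    rw [E.LE_eq h1] at h3 ⊢
    exact h3 (E.hasProd h1)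

theorem inSector_iff (ρ : ℝ) (s : ℂ) : InSector ρ (1 + s) ↔ s ∈ Sect ρ := by
  unfold InSector Sect
  have e1 : 1 + s - 1 = s := by ring
  rw [e1, Set.mem_ofPred_eq]
  have e2 : 1 + s ≠ 1 ↔ s ≠ 0 := by
    constructor
    · intro h h1
      exact h (by rw [h1, add_zero])
    · intro h h1
      exact h (by linear_combination h1)
  rw [e2]

/-- the map `s ↦ 1 + s` -/
theorem tendsto_iff (ρ : ℝ) (f : ℂ → ℂ) (l : ℂ) :
    Tendsto (fun s => f (s - 1)) (𝓝[{s | InSector ρ s}] 1) (𝓝 l) ↔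
      Tendsto f (𝓝[Sect ρ] 0) (𝓝 l) := by
  have h1 : Tendsto (fun s : ℂ => 1 + s) (𝓝[Sect ρ] 0) (𝓝[{s | InSector ρ s}] 1) := by
    refine tendsto_nhdsWithin_iff.2 ⟨?_, ?_⟩
    · have : Tendsto (fun s : ℂ => 1 + s) (𝓝 0) (𝓝 (1 + 0)) := (continuous_const.add continuous_id).tendsto 0
      rw [add_zero] at this
      exact this.mono_left nhdsWithin_le_nhds
    · filter_upwards [self_mem_nhdsWithin] with s hs
      exact (inSector_iff ρ s).2 hs
  have h2 : Tendsto (fun s : ℂ => s - 1) (𝓝[{s | InSector ρ s}] 1) (𝓝[Sect ρ] 0) := by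
    refine tendsto_nhdsWithin_iff.2 ⟨?_, ?_⟩
    · have : Tendsto (fun s : ℂ => s - 1) (𝓝 1) (𝓝 (1 - 1)) := (continuous_id.sub continuous_const).tendsto 1
      rw [sub_self] at this
      exact this.mono_left nhdsWithin_le_nhds
    · filter_upwards [self_mem_nhdsWithin] with s hs
      rw [← inSector_iff]
      have e1 : 1 + (s - 1) = s := by ring
      rw [e1]
      exact hs
  constructor
  · intro h
    refine (h.comp h1).congr fun s => ?_
    simp only [Function.comp_apply, add_sub_cancel_left]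
  · intro h
    exact h.comp h2

theorem part_one (a b : 𝓞 K) (r : ℕ) (A : ℝ) (hA : 0 < A) (ρ₀ : ℝ) (h : 1 ≤ ρ₀) :
    (∀ ρ ρ' : ℝ, ρ₀ < ρ → ρ < ρ' →
      Tendsto (fun Y : ℝ => S a b ρ ρ' Y + r * Real.log (Real.log Y)) atTop
        (𝓝 (Real.log A - r * Real.eulerMascheroniConstant / ρ))) ↔
      ∃ G : ℂ → ℂ, IsLSeries a b G ∧
        (∀ s : ℂ, InSector ρ₀ s ∨ 3 / 2 < s.re → DifferentiableAt ℂ G s ∧ G s ≠ 0) ∧
        ∀ ρ : ℝ, ρ₀ < ρ →
          Tendsto (fun s => G s / (s - 1) ^ r) (𝓝[{s | InSector ρ s}] 1) (𝓝 (A : ℂ)) := by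
  have E : Sys (NN a b) (alV a b) := curve_sys a b
  simp only [S_eq]
  rw [E.star_equiv hreal h r hA]
  constructor
  · rintro ⟨G, h1, h2, h3⟩
    refine ⟨fun s => G (s - 1), ?_, ?_, ?_⟩
    · rw [lseries_iff]
      intro s hs
      simp only [add_sub_cancel_left]
      exact h2 s hs
    · intro s hs
      have h4 : s - 1 ∈ Sect ρ₀ ∨ 1 / 2 < (s - 1).re := by
        rcases hs with hs | hs
        · left
          rw [← inSector_iff]
          have e1 : 1 + (s - 1) = s := by ring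
          rw [e1]
          exact hs
        · right
          rw [Complex.sub_re, Complex.one_re]
          linarith
      obtain ⟨h5, h6⟩ := h1 _ h4
      refine ⟨?_, h6⟩
      exact h5.comp s (differentiableAt_id.sub_const 1)
    · intro ρ hρ
      exact (tendsto_iff ρ (fun s => G s / s ^ r) A).2 (h3 ρ hρ)
  · rintro ⟨G, h1, h2, h3⟩
    rw [lseries_iff] at h1
    refine ⟨fun s => G (1 + s), ?_, h1, ?_⟩
    · intro s hs
      have h4 : InSector ρ₀ (1 + s) ∨ 3 / 2 < (1 + s).re := by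
        rcases hs with hs | hs
        · exact Or.inl ((inSector_iff _ _).2 hs)
        · right
          rw [Complex.add_re, Complex.one_re]
          linarith
      obtain ⟨h5, h6⟩ := h2 _ h4
      refine ⟨?_, h6⟩
      exact h5.comp s (differentiableAt_id.const_add 1)
    · intro ρ hρ
      rw [← tendsto_iff]
      refine (h3 ρ hρ).congr fun s => ?_
      have e1 : 1 + (s - 1) = s := by ring
      simp only [e1]

theorem neBot (ρ : ℝ) (hρ : 0 < ρ) : (𝓝[{s | InSector ρ s}] (1 : ℂ)).NeBot := by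
  have h1 : Tendsto (fun t : ℝ => 1 + (t : ℂ)) (𝓝[>] 0) (𝓝[{s | InSector ρ s}] 1) := by
    refine tendsto_nhdsWithin_iff.2 ⟨?_, ?_⟩
    · have : Tendsto (fun t : ℝ => 1 + (t : ℂ)) (𝓝 0) (𝓝 (1 + ((0 : ℝ) : ℂ))) :=
        (continuous_const.add Complex.continuous_ofReal).tendsto 0
      rw [Complex.ofReal_zero, add_zero] at this
      exact this.mono_left nhdsWithin_le_nhds
    · filter_upwards [self_mem_nhdsWithin] with t ht
      have ht' : (0 : ℝ) < t := ht
      refine ⟨fun h => ?_, ?_⟩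
      · have : (t : ℂ) = 0 := by linear_combination h
        have : t = 0 := by exact_mod_cast this
        linarith
      · rw [add_sub_cancel_left, Complex.arg_ofReal_of_nonneg ht'.le, abs_zero]
        have := Real.pi_pos
        positivity
  exact h1.neBot

theorem inSector_mono {ρ ρ' : ℝ} (hρ : 0 < ρ) (h : ρ ≤ ρ') {s : ℂ} (hs : InSector ρ' s) :
    InSector ρ s := by
  refine ⟨hs.1, hs.2.trans_le ?_⟩
  have := Real.pi_pos
  gcongr

theorem inSector_one (s : ℂ) : InSector 1 s ↔ 1 < s.re := by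
  have h := inSector_iff 1 (s - 1)
  have e1 : 1 + (s - 1) = s := by ring
  rw [e1, sect_one] at h
  rw [h, Set.mem_ofPred_eq, Complex.sub_re, Complex.one_re, sub_pos]

theorem nhds_le (ρ : ℝ) : 𝓝[{s | InSector ρ s}] (1 : ℂ) ≤ 𝓝[≠] 1 :=
  nhdsWithin_mono _ fun _ hs => hs.1

/-- order and leading coefficient from the limit in a sector -/
theorem order_iff {F : ℂ → ℂ} (hF : MeromorphicAt F 1) (r : ℕ) {A : ℂ} (hA : A ≠ 0) {ρ : ℝ}
    (hρ : 0 < ρ) :
    Tendsto (fun s => F s / (s - 1) ^ r) (𝓝[{s | InSector ρ s}] 1) (𝓝 A) ↔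
      meromorphicOrderAt F 1 = ((r : ℤ) : WithTop ℤ) ∧ meromorphicTrailingCoeffAt F 1 = A := by
  have := neBot ρ hρ
  have hle := nhds_le ρ
  set P : ℂ → ℂ := fun s => (s - 1) ^ r with hP
  have hPm : MeromorphicAt P 1 := by fun_prop
  have hgm : MeromorphicAt (fun s => F s / P s) 1 := hF.div hPm
  have hgo : (fun s => F s / (s - 1) ^ r) = fun s => F s / P s := rfl
  have hlim : ∀ m : ℤ, meromorphicOrderAt F 1 = (m : WithTop ℤ) →
      Tendsto (fun s => (s - 1) ^ (-m) * F s) (𝓝[≠] 1) (𝓝 (meromorphicTrailingCoeffAt F 1)) := by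
    intro m hm
    have h1 := hF.tendsto_nhds_meromorphicTrailingCoeffAt
    rw [hm] at h1
    refine h1.congr fun s => ?_
    simp
  constructor
  · intro h
    rcases lt_trichotomy (meromorphicOrderAt (fun s => F s / P s) 1) 0 with h0 | h0 | h0
    · exfalso
      have h1 := (tendsto_cobounded_iff_meromorphicOrderAt_neg hgm).2 h0
      have h2 := h1.mono_left hle
      exact h.not_tendsto (Metric.disjoint_nhds_cobounded A) h2
    · have h1 : meromorphicOrderAt F 1 = ((r : ℤ) : WithTop ℤ) := by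
        have e1 : F =ᶠ[𝓝[≠] 1] (fun s => F s / P s) * P := by
          filter_upwards [self_mem_nhdsWithin] with s hs
          have hs1 : s - 1 ≠ 0 := sub_ne_zero.2 hs
          simp only [Pi.mul_apply, hP]
          field_simp
        have e2 : meromorphicOrderAt P 1 = ((r : ℤ) : WithTop ℤ) := by
          rw [meromorphicOrderAt_eq_int_iff hPm]
          refine ⟨fun _ => 1, analyticAt_const, one_ne_zero, ?_⟩
          filter_upwards with s
          simp [hP]
        rw [meromorphicOrderAt_congr e1, meromorphicOrderAt_mul hgm hPm, h0, e2, zero_add]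
      refine ⟨h1, ?_⟩
      have h3 := (hlim r h1).mono_left hle
      refine tendsto_nhds_unique h3 (h.congr fun s => ?_)
      rw [zpow_neg, zpow_natCast]
      field_simp
    · exfalso
      have h1 := (tendsto_zero_iff_meromorphicOrderAt_pos hgm).2 h0
      exact hA (tendsto_nhds_unique h (h1.mono_left hle))
  · rintro ⟨h1, h2⟩
    have h3 := (hlim r h1).mono_left hle
    rw [h2] at h3
    refine h3.congr fun s => ?_
    rw [zpow_neg, zpow_natCast]
    field_simp

end aux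

/-- **Continuation, zeros, order and leading coefficient in terms of finite sums.** -/
theorem result (K : Type) [Field K] [NumberField K] (a b : 𝓞 K) (r : ℕ) (A : ℝ) (hA : 0 < A) :
    (∀ ρ' Y : ℝ, (pairs a b ρ' Y).Finite) ∧
    (∀ ρ₀ : ℝ, 1 ≤ ρ₀ →
      ((∀ ρ ρ' : ℝ, ρ₀ < ρ → ρ < ρ' →
        Tendsto (fun Y : ℝ => S a b ρ ρ' Y + r * Real.log (Real.log Y)) atTop
          (𝓝 (Real.log A - r * Real.eulerMascheroniConstant / ρ))) ↔
      ∃ G : ℂ → ℂ, IsLSeries a b G ∧
        (∀ s : ℂ, InSector ρ₀ s ∨ 3 / 2 < s.re → DifferentiableAt ℂ G s ∧ G s ≠ 0) ∧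
        ∀ ρ : ℝ, ρ₀ < ρ →
          Tendsto (fun s => G s / (s - 1) ^ r) (𝓝[{s | InSector ρ s}] 1) (𝓝 (A : ℂ)))) ∧
    ∀ F : ℂ → ℂ, IsLSeries a b F → (∀ s : ℂ, 1 < s.re → DifferentiableAt ℂ F s) →
      MeromorphicAt F 1 →
      ((∀ ρ ρ' : ℝ, 1 < ρ → ρ < ρ' →
        Tendsto (fun Y : ℝ => S a b ρ ρ' Y + r * Real.log (Real.log Y)) atTop
          (𝓝 (Real.log A - r * Real.eulerMascheroniConstant / ρ))) ↔
      (∀ s : ℂ, 1 < s.re → F s ≠ 0) ∧ meromorphicOrderAt F 1 = ((r : ℤ) : WithTop ℤ) ∧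
        meromorphicTrailingCoeffAt F 1 = A) := by
  have hA' : (A : ℂ) ≠ 0 := by exact_mod_cast hA.ne'
  refine ⟨fun ρ' Y => ?_, fun ρ₀ h => part_one a b r A hA ρ₀ h, fun F h1 h2 h3 => ?_⟩
  · exact (Pool.Agent.TH942.ES.curve_sys a b).finS _
  · rw [part_one a b r A hA 1 le_rfl]
    constructor
    · rintro ⟨G, g1, g2, g3⟩
      have hFG : ∀ s : ℂ, 1 < s.re → F s = G s := by
        have hU : IsOpen {s : ℂ | 1 < s.re} := isOpen_lt continuous_const Complex.continuous_re
        have a1 : AnalyticOnNhd ℂ F {s : ℂ | 1 < s.re} :=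
          DifferentiableOn.analyticOnNhd (fun s hs => (h2 s hs).differentiableWithinAt) hU
        have a2 : AnalyticOnNhd ℂ G {s : ℂ | 1 < s.re} :=
          DifferentiableOn.analyticOnNhd
            (fun s hs => (g2 s (Or.inl ((inSector_one s).2 hs))).1.differentiableWithinAt) hU
        have hV : IsOpen {s : ℂ | 3 / 2 < s.re} := isOpen_lt continuous_const Complex.continuous_re
        have h2' : (2 : ℂ) ∈ {s : ℂ | 1 < s.re} := by
          rw [Set.mem_ofPred_eq]
          norm_num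
        have a3 := a1.eqOn_of_preconnected_of_eventuallyEq a2
          (convex_halfSpace_re_gt 1).isPreconnected h2' (by
            filter_upwards [hV.mem_nhds (show (3 : ℝ) / 2 < (2 : ℂ).re by norm_num)] with z hz
            exact (h1 z hz).unique (g1 z hz))
        exact fun s hs => a3 hs
      refine ⟨fun s hs => ?_, ?_⟩
      · rw [hFG s hs]
        exact (g2 s (Or.inl ((inSector_one s).2 hs))).2
      · rw [← order_iff h3 r hA' (ρ := 2) (by norm_num)]
        refine (g3 2 (by norm_num)).congr' ?_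
        filter_upwards [self_mem_nhdsWithin] with s hs
        rw [hFG s ((inSector_one s).1 (inSector_mono (by norm_num) (by norm_num) hs))]
    · rintro ⟨g1, g2⟩
      refine ⟨F, h1, ?_, fun ρ hρ => ?_⟩
      · intro s hs
        have hs1 : 1 < s.re := by
          rcases hs with hs | hs
          · exact (inSector_one s).1 hs
          · linarith
        exact ⟨h2 s hs1, g1 s hs1⟩
      · exact (order_iff h3 r hA' (by linarith)).2 g2

end Pool.Agent.Results.MP_1a91b9_nt.ContinuationFromFiniteSums
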