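import Mathlib
import Pool.Agent.X99.C49.MQ
import Pool.Agent.Y687.MQ.Crit
import Pool.Agent.Y948.CQ.C2

/-!
# The twists of `X_0(49)` over multiquadratic fields

`E_M : y² = x³ - 35 M² x - 98 M³` is the quadratic twist by `M` of the curve `X_0(49)`, which has
complex multiplication by the integers of `ℚ(√-7)`. The family consists of ALL the odd squarefree
positive integers which are sums of two squares; `D` is good if it is in the family, `E_D(ℚ)` is finite
and `Ш(E_D/ℚ)` has no element of order two. The pair of an integer `M` and of a field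
`K = ℚ(√d_1, …, √d_n)` of degree `2ⁿ` is good if all the `2ⁿ` numbers `M ∏_{i ∈ T} d_i` are good up
to squares. For all good pairs `E_M(K)` is finite, the function `L(E_M/K, s)` (without the Euler factors
at the places dividing `14 M ∏ d_i`) is entire and does not vanish at `1`, the `L`-series of Mathlib
continues analytically to a connected open set containing `1` where its order is the rank (the
conclusion of the frozen statement `S16511`), and `Ш(E_M/K)[2^∞]` is finite and killed by `2ⁿ`. For every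
field `K` whose `d_i` are in the family up to squares, the pairs `(D, K)`, and also `(M D, K)`, are good
for a proportion of exactly `c^(2ⁿ)` of the `D` of the family ordered by size, with
`c = ∏ (1 - 2^(-2 i - 1)) = 0.419…`. If `(M, K)` is good, then `(M, K(√D))` is good for a proportion
of exactly `c^(2ⁿ)` of the `D` of the family.

Proof. The values `L(E_D, 1)` modulo the primes above two and the descent are those of the teams of
`Pool/Agent/Y698`, carried over to `ℚ` in `Pool/Agent/X99/C49`; the joint law is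
`Pool/Agent/X99/GJ`, which generalises the joint law of project JQ; the passage to the fields is that
of `Pool/Agent/Y73`, `Y687/MQ` and `Y723/QT`; the passage from the Euler product without the factors
at the bad places to the `L`-series is `Pool/Agent/X99/LS`.
-/

set_option autoImplicit false

open NumberField IsDedekindDomain Filter Topology
open scoped Classical

namespace Pool.Agent.Results.MP_1a91b9_nt.MultiquadraticSumsOfTwoSquares

/-- the curve `y² = x³ - 35 M² x - 98 M³` over the field `K`, the quadratic twist by `M` of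
`X_0(49)` -/
def E (K : Type) [Field K] (M : ℤ) : WeierstrassCurve K :=
  { a₁ := 0, a₂ := 0, a₃ := 0, a₄ := ((-35 * M ^ 2 : ℤ) : K), a₆ := ((-98 * M ^ 3 : ℤ) : K) }

/-- the family: the odd squarefree sums of two squares -/
def Family (D : ℕ) : Prop := Squarefree D ∧ Odd D ∧ ∃ x y : ℕ, D = x ^ 2 + y ^ 2

/-- `D` is in the family, `E_D(ℚ)` is finite and `Ш(E_D/ℚ)` has no element of order two -/
def Good (D : ℕ) : Prop := Family D ∧ Finite (E ℚ D).toAffine.Point ∧
  ∀ x : Pool.Agent.TH841.SH.D.Sha (E ℚ D), 2 • x = 0 → x = 0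

/-- `z` is in the family up to squares -/
def FamilySq (z : ℤ) : Prop := ∃ (D : ℕ) (k : ℤ), Family D ∧ k ≠ 0 ∧ z = D * k ^ 2

/-- `z` is good up to squares -/
def GoodSq (z : ℤ) : Prop := ∃ (D : ℕ) (k : ℤ), Good D ∧ k ≠ 0 ∧ z = D * k ^ 2

/-- `d_1, …, d_n` are independent modulo squares -/
def Independent {n : ℕ} (d : Fin n → ℤ) : Prop :=
  ∀ T : Finset (Fin n), T.Nonempty → ¬ IsSquare (∏ i ∈ T, d i)

/-- the pair of `M` and `ℚ(√d_1, …, √d_n)` is good: `d_1, …, d_n` are independent modulo squares and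
all the numbers `M ∏_{i ∈ T} d_i` are good up to squares -/
def GoodPair {n : ℕ} (M : ℤ) (d : Fin n → ℤ) : Prop :=
  Independent d ∧ ∀ T : Finset (Fin n), GoodSq (M * ∏ i ∈ T, d i)

/-- `K = ℚ(√d_1, …, √d_n)` -/
def IsMultiquadratic {n : ℕ} (d : Fin n → ℤ) (K : Type) [Field K] [NumberField K] : Prop :=
  ∃ x : Fin n → K, (∀ i, x i ^ 2 = (d i : K)) ∧ IntermediateField.adjoin ℚ (Set.range x) = ⊤

/-- the number `q_v` of elements of the residue field of a finite place `v` of `K` -/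
noncomputable def qv (K : Type) [Field K] (v : HeightOneSpectrum (𝓞 K)) : ℕ :=
  Nat.card (𝓞 K ⧸ v.asIdeal)

/-- `a_v = q_v + 1 - #E_M(k_v)`, that is `q_v` minus the number of affine points -/
noncomputable def av (K : Type) [Field K] (M : ℤ) (v : HeightOneSpectrum (𝓞 K)) : ℤ :=
  (qv K v : ℤ) - Nat.card {z : (𝓞 K ⧸ v.asIdeal) × (𝓞 K ⧸ v.asIdeal) //
    z.2 ^ 2 = z.1 ^ 3 + ((-35 * M ^ 2 : ℤ) : 𝓞 K ⧸ v.asIdeal) * z.1 +
      ((-98 * M ^ 3 : ℤ) : 𝓞 K ⧸ v.asIdeal)}

/-- `F` is entire and is, for `Re s > 3/2`, the `L`-function of `E_M` over `K` without the Euler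
factors at the places `v ∣ 14 M m` -/
def IsL (K : Type) [Field K] (M m : ℤ) (F : ℂ → ℂ) : Prop :=
  Differentiable ℂ F ∧ ∀ s : ℂ, (3 : ℝ) / 2 < s.re →
    HasProd (fun v : HeightOneSpectrum (𝓞 K) =>
      if ((14 * M * m : ℤ) : 𝓞 K) ∈ v.asIdeal then 1 else
        (1 - (av K M v : ℂ) * (qv K v : ℂ) ^ (-s) + (qv K v : ℂ) ^ (1 - 2 * s))⁻¹) (F s)

/-- the conclusion of the frozen statement `S16511` for the curve `W` over `K`: the `L`-series continues
analytically from `Re s > 3/2` to a connected open set containing `1`, where its order is the rank -/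
def RankConjecture (K : Type) [Field K] [NumberField K] (W : WeierstrassCurve K) : Prop :=
  ∃ (U : Set ℂ) (F : ℂ → ℂ),
    IsOpen U ∧ IsConnected U ∧ {s : ℂ | (3 / 2 : ℝ) < s.re} ⊆ U ∧ (1 : ℂ) ∈ U ∧
    AnalyticOnNhd ℂ F U ∧ (∀ s : ℂ, (3 / 2 : ℝ) < s.re → F s = W.LSeries s) ∧
    (∀ r : ℕ, r < Module.finrank ℤ W.toAffine.Point → iteratedDeriv r F 1 = 0) ∧
    iteratedDeriv (Module.finrank ℤ W.toAffine.Point) F 1 ≠ 0

/-- the elements of `Ш(W/K)` whose order is a power of two -/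
def Sha2 (K : Type) [Field K] [NumberField K] (W : WeierstrassCurve K) :
    Set (Pool.Agent.TH841.NF.D.Sha W) := {x | ∃ k : ℕ, (2 ^ k : ℕ) • x = 0}

/-- the proportion `(1 - 1/2) (1 - 1/8) (1 - 1/32) ⋯` -/
noncomputable def c : ℝ := ∏' i : ℕ, (1 - (1 / 2 : ℝ) ^ (2 * i + 1))

/-- the number of the `D ≤ X` of the family with the property `Q` -/
noncomputable def count (Q : ℕ → Prop) (X : ℕ) : ℕ :=
  ((Finset.Icc 1 X).filter fun D => Family D ∧ Q D).card

/-- the proportion of the `D` of the family with the property `Q` is `δ` -/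
def HasProportion (Q : ℕ → Prop) (δ : ℝ) : Prop :=
  Tendsto (fun X : ℕ => (count Q X : ℝ) / (count (fun _ => True) X : ℝ)) atTop (𝓝 δ)

section proof

open Pool.Agent.X99.C49 (Fam fam_two)

lemma family_iff (D : ℕ) : Family D ↔ Fam D := fam_two D

lemma good_iff (D : ℕ) : Good D ↔ Pool.Agent.X99.C49.Good D := by
  unfold Good Pool.Agent.X99.C49.Good
  rw [family_iff]
  rfl

lemma gs_iff (z : ℤ) : GoodSq z ↔ ∃ (D : ℕ) (k : ℤ), Pool.Agent.X99.C49.Good D ∧ k ≠ 0 ∧
    z = D * k ^ 2 := by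
  unfold GoodSq
  simp only [good_iff]

lemma fs_iff (z : ℤ) : FamilySq z ↔ Pool.Agent.X99.C49.FamSq z := by
  unfold FamilySq Pool.Agent.X99.C49.FamSq
  simp only [family_iff]

lemma pair_iff {n : ℕ} (M : ℤ) (d : Fin n → ℤ) :
    GoodPair M d ↔ (Pool.Agent.Y687.MQ.Ind d ∧ Pool.Agent.X99.C49.GO d M) := by
  unfold GoodPair
  simp only [gs_iff]
  rfl

lemma isL_of {K : Type} [Field K] [NumberField K] {M m : ℤ} {F : ℂ → ℂ}
    (h : Pool.Agent.Y19.QT.IsLFunK K (-35 * M ^ 2) (-98 * M ^ 3) m F) : IsL K M m F := by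
  have key : ∀ v : HeightOneSpectrum (𝓞 K),
      (((14 * M * m : ℤ) : 𝓞 K) ∈ v.asIdeal ↔
        ((2 * (4 * (-35 * M ^ 2) ^ 3 + 27 * (-98 * M ^ 3) ^ 2) * m : ℤ) : 𝓞 K) ∈ v.asIdeal) := by
    intro v
    have := v.isPrime
    constructor
    · intro h1
      have e : ((2 * (4 * (-35 * M ^ 2) ^ 3 + 27 * (-98 * M ^ 3) ^ 2) * m : ℤ) : 𝓞 K) =
          ((2 ^ 8 * 7 ^ 2 * M ^ 5 : ℤ) : 𝓞 K) * ((14 * M * m : ℤ) : 𝓞 K) := by
        rw [← Int.cast_mul]
        congr 1
        ring
      rw [e]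
      exact Ideal.mul_mem_left _ _ h1
    · intro h1
      refine Ideal.IsPrime.mem_of_pow_mem this 9 ?_
      have e : ((14 * M * m : ℤ) : 𝓞 K) ^ 9 =
          ((7 ^ 6 * M ^ 3 * m ^ 8 : ℤ) : 𝓞 K) *
            ((2 * (4 * (-35 * M ^ 2) ^ 3 + 27 * (-98 * M ^ 3) ^ 2) * m : ℤ) : 𝓞 K) := by
        rw [← Int.cast_mul, ← Int.cast_pow]
        congr 1
        ring
      rw [e]
      exact Ideal.mul_mem_left _ _ h1
  unfold IsL
  simp only [key]
  exact h

lemma prop_of {Q Q' : ℕ → Prop} {δ : ℝ} {i1 : DecidablePred fun D : ℕ => Fam D ∧ Q' D}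
    {i2 : DecidablePred fun D : ℕ => Fam D} (h : Tendsto (fun X : ℕ =>
    (((Finset.Icc 1 X).filter fun D : ℕ => Fam D ∧ Q' D).card : ℝ) /
      (((Finset.Icc 1 X).filter fun D : ℕ => Fam D).card : ℝ)) atTop (𝓝 δ))
    (hQ : ∀ D, Fam D → (Q D ↔ Q' D)) : HasProportion Q δ := by
  refine h.congr fun X => ?_
  unfold count
  refine congrArg₂ (fun a b : ℕ => (a : ℝ) / (b : ℝ)) ?_ ?_
  · refine Pool.Agent.X99.GJ.fc _ fun D _ => ?_
    rw [family_iff]
    exact and_congr_right fun hD => (hQ D hD).symm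
  · refine Pool.Agent.X99.GJ.fc _ fun D _ => ?_
    rw [family_iff, and_true]

end proof

theorem result :
    (∀ (n : ℕ) (M : ℤ) (d : Fin n → ℤ), GoodPair M d → ∀ (K : Type) [Field K] [NumberField K],
      IsMultiquadratic d K →
      Module.finrank ℚ K = 2 ^ n ∧ Finite (E K M).toAffine.Point ∧
      (∃ F : ℂ → ℂ, IsL K M (∏ i, d i) F ∧ F 1 ≠ 0) ∧ RankConjecture K (E K M) ∧
      (Sha2 K (E K M)).Finite ∧ ∀ x ∈ Sha2 K (E K M), (2 ^ n : ℕ) • x = 0) ∧
    (∀ (n : ℕ) (d : Fin n → ℤ) (M : ℤ), Independent d → (∀ i, FamilySq (d i)) → FamilySq M →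
      HasProportion (fun D => GoodPair (M * D) d) (c ^ 2 ^ n)) ∧
    (∀ (n : ℕ) (M : ℤ) (d : Fin n → ℤ), GoodPair M d →
      HasProportion (fun D => GoodPair M (Fin.snoc d (D : ℤ) : Fin (n + 1) → ℤ)) (c ^ 2 ^ n)) ∧
    0.4194 < c ∧ c < 0.4195 := by
  refine ⟨fun n M d hd K _ _ ⟨x, hx, hK⟩ => ?_, fun n d M hd ha hM => ?_, fun n M d hd => ?_, ?_⟩
  · obtain ⟨hind, h⟩ := (pair_iff M d).1 hd
    obtain ⟨⟨F, hF, hF1⟩, hfin⟩ := Pool.Agent.X99.C49.field_thm hind h K x hx hK
    have hfin' : Finite (E K M).toAffine.Point := hfin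
    have hm : (∏ i, d i) ≠ 0 := by
      intro h0
      by_cases hn : (Finset.univ : Finset (Fin n)).Nonempty
      · refine hind Finset.univ hn ?_
        rw [h0]
        exact ⟨0, rfl⟩
      · rw [Finset.not_nonempty_iff_eq_empty] at hn
        rw [hn, Finset.prod_empty] at h0
        exact one_ne_zero h0
    have hr : Module.finrank ℤ (E K M).toAffine.Point = 0 :=
      Pool.Agent.Y687.finrank_zero_of_finite hfin'
    have ho : analyticOrderAt F 1 = ((0 : ℕ) : ℕ∞) := by
      rw [Nat.cast_zero]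
      exact (hF.1.analyticAt 1).analyticOrderAt_eq_zero.2 hF1
    have hL := Pool.Agent.X99.LS.concl (K := K) (Pool.Agent.X99.C49.neM h.ne) hm hF ho
    obtain ⟨h2, h3⟩ := Pool.Agent.X99.C49.sha_field hind h K hx hK
    refine ⟨?_, hfin', ⟨F, isL_of hF, hF1⟩, ?_, h2, fun y ⟨k, hy⟩ => h3 k y hy⟩
    · have := Pool.Agent.Y73.QMQ1.gal_of hx hK
      rw [← IsGalois.card_aut_eq_finrank]
      exact Pool.Agent.Y73.QMQ1.card_gal hind hx hK
    · unfold RankConjecture
      rw [hr]
      exact hL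
  · exact prop_of (Pool.Agent.X99.C49.prop_field hd (fun i => (fs_iff _).1 (ha i)) ((fs_iff _).1 hM))
      fun D _ => by
        rw [pair_iff]
        exact ⟨fun h => h.2, fun h => ⟨hd, h⟩⟩
  · obtain ⟨hind, h⟩ := (pair_iff M d).1 hd
    have h1 := Pool.Agent.X99.C49.prop_ext hind h
    refine prop_of h1 fun D _ => ?_
    exact pair_iff M (Fin.snoc d (D : ℤ) : Fin (n + 1) → ℤ)
  · exact ⟨Pool.Agent.Y948.CQ.t_C2.2.2.2.1, Pool.Agent.Y948.CQ.t_C2.2.2.2.2⟩

end Pool.Agent.Results.MP_1a91b9_nt.MultiquadraticSumsOfTwoSquares
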