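import Pool.Agent.X287.NFCurve

/-!
# One-sided numerical forms of the conjecture over every number field

`K` is any number field and `E : y² = x³ + a x + b`, `a, b ∈ 𝓞_K`, any elliptic curve over `K`. For a prime `v` of
`K` which does not divide `6 (4 a³ + 27 b²)` let `q_v` be the norm, `N_v` the number of affine points modulo `v` and
`1 - (q_v - N_v) X + q_v X² = (1 - α_v X) (1 - β_v X)`. The incomplete `L`-series `L(s)` of `E` is the product of the
`(1 - (q_v - N_v) q_v^{-s} + q_v^{1 - 2s})⁻¹`, for `Re s > 3/2`. For `ρ' > ρ > 1` let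

`S_{ρ,ρ'}(Y) = - ∑ w_{1/ρ}(k log q_v / log Y) (α_v^k + β_v^k) / (k q_v^k)`,

the FINITE sum over the pairs `(v, k)`, `k ≥ 1`, with `q_v^k ≤ exp((log Y)^ρ')`, where `w_α` is the smooth
Mittag-Leffler weight `w_α(u) = (2π)⁻¹ ∫ Re (exp(z - u z^α) / z) dt`, `z = 1 + i t`, `w_α(0) = 1`. So `exp S_{ρ,ρ'}(Y)` is
a smoothed form of the product `∏ (N_v + 1) / q_v` of Birch and Swinnerton-Dyer. Let `R(T)` be the number of the GLOBAL
points of height `≤ T`, `R(T) = #{P ∈ E(K) : h_K(x(P)) ≤ T}`.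

The ONLY hypothesis is that `L(s)` continues holomorphically to a neighbourhood of the real segment `[1, 3/2]`. Let
`m = ord_{s=1} L(s)`. Nothing is assumed on a continuation to non-real points (far from the segment) or on zeros; zeros on
the segment are allowed. For `ρ₀ ≥ 1` let `V` be the open sector `|arg (s - 1)| < π / (2 ρ₀)`, the half plane `Re s > 1`
if `ρ₀ = 1`, and let `(Z)` be the statement

  `L(s)` has a holomorphic continuation WITHOUT ZEROS to the union of `V` and `{Re s > 3/2}`.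

Fix, for every `ρ`, a `ρ' = t(ρ) > ρ`. The following equivalences hold, the words for all `ρ` meaning for all `ρ > ρ₀`.

1. `(Z)` if and only if for all `ρ`, `ε > 0`: `S_{ρ,ρ'}(Y) ≤ exp (ε (log Y)^ρ)` for all large `Y`.
2. `(Z)` and `m ≤ r` if and only if for all `ρ`: `limsup S_{ρ,ρ'}(Y) / log log Y ≤ r` (`r` any real number).
3. `(Z)` and `m ≤ rank E(K)` if and only if for all `ρ`: `S_{ρ,ρ'}(Y) ≤ 2 log R(log Y) + O(1)`.
4. `(Z)` and `m = rank E(K)` if and only if for all `ρ`: `S_{ρ,ρ'}(Y) = 2 log R(log Y) + O(1)`.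

The conditions in 1, 2, 3 are ONE-SIDED: an upper bound for finite sums, so the existence of the analytic
continuation into the complex domain `V` (which is a part of Q1 and not known for general `K`) and the absence of zeros
there follow from upper bounds for numbers of points. For a continuation which is not supposed to exist even near
the real line, two-sided conditions were given in `ContinuationFromFiniteSums` of this problem, without rank;
for `K = ℚ`, where the continuation is known, one-sided conditions in `MP_696deb_nt.SectorialOneSided`.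

Proof. For `y = (log Y)^ρ` the function `y S_{ρ,ρ'}` is, up to `o(1)` for `S`, a function `f` with
`∫ f(y) e^{-vy} dy = - (d/dv) (g(v)/v)`, `g(v) = - log L(1 + v^{1/ρ})` for large `Re v`. If `S` is bounded above as in
1, let `ξ` be the largest real zero of `L(1 + v^{1/ρ})` (if any). The Laplace transform of the nonnegative function
`A e^{ay} - f(y)`, `a < ξ`, converges for `v > ξ` by Landau's theorem; it is nonnegative there, so its primitive,
which contains `g(v)/v`, is monotone, but `g(v) → + ∞` for `v → ξ`, a contradiction. So there are no real zeros, the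
Laplace integral converges for all `Re v > 0`, and `g` is holomorphic there, i. e. `log L(s)` in the sector. The
asymptotic formula for `S` in a zero-free sector is in `Pool.Agent.TH942.ES`, the number of the global points is
estimated with Néron's canonical height (`Pool.Agent.TH942.Ner`). New: `Pool.Agent.X287.RSect`, `RSect2`, `RSys`.
-/

set_option autoImplicit false

open IsDedekindDomain NumberField Filter Topology Classical

namespace Pool.Agent.Results.MP_1a91b9_nt.OneSidedEveryField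

variable {K : Type} [Field K] [NumberField K]

/-- The prime `v` does not divide `6 (4 a³ + 27 b²)`. -/
def Good (a b : 𝓞 K) (v : HeightOneSpectrum (𝓞 K)) : Prop :=
  6 * (4 * a ^ 3 + 27 * b ^ 2) ∉ v.asIdeal

/-- `q_v`, the number of elements of the residue field. -/
noncomputable def q (v : HeightOneSpectrum (𝓞 K)) : ℕ := Ideal.absNorm v.asIdeal

/-- `N_v`, the number of affine points of `y² = x³ + a x + b` modulo `v`. -/
noncomputable def points (a b : 𝓞 K) (v : HeightOneSpectrum (𝓞 K)) : ℕ :=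
  Nat.card {P : (𝓞 K ⧸ v.asIdeal) × (𝓞 K ⧸ v.asIdeal) //
    P.2 ^ 2 = P.1 ^ 3 + Ideal.Quotient.mk v.asIdeal a * P.1 + Ideal.Quotient.mk v.asIdeal b}

/-- The power sums `α_v ^ n + β_v ^ n`, where `1 - (q_v - N_v) X + q_v X² = (1 - α_v X) (1 - β_v X)`, by
the recursion. -/
noncomputable def powerSum (a b : 𝓞 K) (v : HeightOneSpectrum (𝓞 K)) : ℕ → ℝ
  | 0 => 2
  | 1 => (q v : ℝ) - points a b v
  | n + 2 => ((q v : ℝ) - points a b v) * powerSum a b v (n + 1) - (q v : ℝ) * powerSum a b v n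

/-- The Mittag-Leffler weight `w_α(u) = (2π)⁻¹ ∫ Re (exp (z - u z^α) / z) dt`, `z = 1 + it`. -/
noncomputable def weight (α u : ℝ) : ℝ :=
  (2 * Real.pi)⁻¹ * ∫ t : ℝ, (Complex.exp ((1 + t * Complex.I) -
    u * (1 + t * Complex.I) ^ (α : ℂ)) / (1 + t * Complex.I)).re

/-- The pairs `(v, k)`, `v` good and `k = x.2 + 1`, with `q_v ^ k ≤ exp((log Y)^ρ')`. -/
def pairs (a b : 𝓞 K) (ρ' Y : ℝ) : Set ({v : HeightOneSpectrum (𝓞 K) // Good a b v} × ℕ) :=
  {x | (q x.1.1 : ℝ) ^ (x.2 + 1) ≤ Real.exp (Real.log Y ^ ρ')}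

/-- `S_{ρ,ρ'}(Y)`: minus the sum over the finite set `pairs`, with `k = x.2 + 1`. -/
noncomputable def S (a b : 𝓞 K) (ρ ρ' Y : ℝ) : ℝ :=
  -∑ᶠ x ∈ pairs a b ρ' Y, weight ρ⁻¹ (((x.2 : ℝ) + 1) * Real.log (q x.1.1) / Real.log Y) *
    (powerSum a b x.1.1 (x.2 + 1) / (((x.2 : ℝ) + 1) * (q x.1.1 : ℝ) ^ (x.2 + 1)))

/-- `s` lies in the sector `|arg (s - 1)| < π / (2ρ)`, `s ≠ 1`; the half plane `Re s > 1` for `ρ = 1`. -/
def InSector (ρ : ℝ) (s : ℂ) : Prop := s ≠ 1 ∧ |Complex.arg (s - 1)| < Real.pi / (2 * ρ)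

/-- `G` is the incomplete `L`-series of `y² = x³ + a x + b` for `Re s > 3/2`. -/
def IsLSeries (a b : 𝓞 K) (G : ℂ → ℂ) : Prop :=
  ∀ s : ℂ, 3 / 2 < s.re → HasProd (fun v : {v : HeightOneSpectrum (𝓞 K) // Good a b v} =>
    (1 - ((q v.1 : ℂ) - points a b v.1) * (q v.1 : ℂ) ^ (-s) + (q v.1 : ℂ) ^ (1 - 2 * s))⁻¹) (G s)

/-- `F` continues the `L`-series holomorphically to a neighbourhood of the real segment `[1, 3/2]`. -/
def IsRealContinuation (a b : 𝓞 K) (F : ℂ → ℂ) : Prop :=
  IsLSeries a b F ∧ ∀ x : ℝ, 1 ≤ x → x ≤ 3 / 2 → AnalyticAt ℂ F (x : ℂ)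

/-- `F` has the order `m` and the leading coefficient `A` at `s = 1`. -/
def HasOrder (F : ℂ → ℂ) (m : ℕ) (A : ℂ) : Prop :=
  A ≠ 0 ∧ Tendsto (fun s => F s / (s - 1) ^ m) (𝓝[≠] 1) (𝓝 A)

/-- `(Z)`: the `L`-series has a holomorphic continuation without zeros to the union of the sector and
`{Re s > 3/2}`. -/
def ZeroFree (a b : 𝓞 K) (ρ₀ : ℝ) : Prop := ∃ G : ℂ → ℂ, IsLSeries a b G ∧
  ∀ s : ℂ, InSector ρ₀ s ∨ 3 / 2 < s.re → DifferentiableAt ℂ G s ∧ G s ≠ 0

/-- The curve `y² = x³ + a x + b` over `K`. -/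
def curve (a b : 𝓞 K) : WeierstrassCurve K := { a₁ := 0, a₂ := 0, a₃ := 0, a₄ := a, a₆ := b }

/-- The group `E(K)` of the points of `y² = x³ + a x + b`. -/
abbrev Points (a b : 𝓞 K) : Type := (curve a b).toAffine.Point

/-- The height `h_K(x(P)) = ∑_v n_v log max (1, |x(P)|_v)` (Mathlib's logarithmic height, relative to `K`), and
`0` for the point at infinity. -/
noncomputable def height {a b : 𝓞 K} : Points a b → ℝ
  | .zero => 0
  | .some x _ _ => Height.logHeight₁ x

/-- `R(T)`: the number of the points of `E(K)` of height at most `T`. -/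
noncomputable def R (a b : 𝓞 K) (T : ℝ) : ℕ := Nat.card {P : Points a b // height P ≤ T}

/-- the rank of the group `E(K)` -/
noncomputable def rank (a b : 𝓞 K) : ℕ := Module.finrank ℤ (Points a b)

open Pool.Agent.Results.MP_1a91b9_nt in
theorem S_eq (a b : 𝓞 K) (ρ ρ' Y : ℝ) : S a b ρ ρ' Y = -ContinuationFromFiniteSums.S a b ρ ρ' Y := by
  have h : ∀ (v : HeightOneSpectrum (𝓞 K)) (n : ℕ),
      powerSum a b v n = ContinuationFromFiniteSums.powerSum a b v n := by
    intro v n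
    induction n using Nat.twoStepInduction with
    | zero => rfl
    | one => rfl
    | more n ih1 ih2 =>
      simp only [powerSum, ContinuationFromFiniteSums.powerSum]
      rw [ih1, ih2]
      rfl
  unfold S ContinuationFromFiniteSums.S
  simp only [h]
  rfl

open Pool.Agent.Results.MP_9ab903_nt in
theorem R_eq (a b : 𝓞 K) (T : ℝ) : R a b T = RegulatorFree.R (a : K) (b : K) T := by
  have h : ∀ P : Points a b, height P = RegulatorFree.height (a := (a : K)) (b := (b : K)) P := by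
    intro P
    cases P with
    | zero => rfl
    | some x y h => rfl
  unfold R RegulatorFree.R
  simp only [h]
  rfl

open Pool.Agent.Results.MP_1a91b9_nt Pool.Agent.Results.MP_9ab903_nt in
open Pool.Agent.Results.MP_1a91b9_nt.ContinuationFromFiniteSums (NN) in
/-- **One-sided numerical forms of the rank conjecture, with continuation, over every number field.** -/
theorem result (K : Type) [Field K] [NumberField K] (a b : 𝓞 K) (hΔ : 4 * a ^ 3 + 27 * b ^ 2 ≠ 0)
    (F : ℂ → ℂ) (hF : IsRealContinuation a b F) :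
    (∀ ρ' Y : ℝ, (pairs a b ρ' Y).Finite) ∧ (∀ T : ℝ, {P : Points a b | height P ≤ T}.Finite) ∧
    ∃ (m : ℕ) (A : ℂ), HasOrder F m A ∧
      ∀ t : ℝ → ℝ, (∀ ρ, ρ < t ρ) → ∀ ρ₀ : ℝ, 1 ≤ ρ₀ →
      -- 1. continuation and zeros
      (ZeroFree a b ρ₀ ↔ ∀ ρ : ℝ, ρ₀ < ρ → ∀ ε : ℝ, 0 < ε → ∀ᶠ Y : ℝ in atTop,
        S a b ρ (t ρ) Y ≤ Real.exp (ε * Real.log Y ^ ρ)) ∧
      -- 2. the order
      (∀ r : ℝ, (ZeroFree a b ρ₀ ∧ (m : ℝ) ≤ r) ↔
        ∀ ρ : ℝ, ρ₀ < ρ → ∀ ε : ℝ, 0 < ε → ∀ᶠ Y : ℝ in atTop,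
          S a b ρ (t ρ) Y ≤ (r + ε) * Real.log (Real.log Y)) ∧
      -- 3. one half of the rank conjecture
      ((ZeroFree a b ρ₀ ∧ m ≤ rank a b) ↔
        ∀ ρ : ℝ, ρ₀ < ρ → ∃ C : ℝ, ∀ᶠ Y : ℝ in atTop,
          S a b ρ (t ρ) Y ≤ 2 * Real.log (R a b (Real.log Y)) + C) ∧
      -- 4. the rank conjecture
      ((ZeroFree a b ρ₀ ∧ m = rank a b) ↔
        ∀ ρ : ℝ, ρ₀ < ρ → ∃ C : ℝ, ∀ᶠ Y : ℝ in atTop,
          |S a b ρ (t ρ) Y - 2 * Real.log (R a b (Real.log Y))| ≤ C) := by
  have hΔ' : 4 * (a : K) ^ 3 + 27 * (b : K) ^ 2 ≠ 0 := by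
    intro h
    apply hΔ
    refine (map_eq_zero_iff _ (IsFractionRing.injective (𝓞 K) K)).1 ?_
    simp only [map_add, map_mul, map_pow, map_ofNat]
    exact h
  have E := Pool.Agent.TH942.ES.curve_sys a b
  have hreal := ContinuationFromFiniteSums.hreal (K := K) (a := a) (b := b)
  have hF' : ContinuationFromFiniteSums.IsLSeries a b F := hF.1
  have hr := hF.2
  have H := Pool.Agent.X287.NF.rcon hF' hr
  have h0 := Pool.Agent.X287.NF.an_all hF' hr 0 le_rfl
  rw [Complex.ofReal_zero] at h0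
  obtain ⟨m, A, hA⟩ := Pool.Agent.X287.RS.exists_lead E H h0
  obtain ⟨r, g, hg⟩ := Pool.Agent.TH942.exists_basis (Pool.Agent.TH942.sfg hΔ')
  have hrank : rank a b = r :=
    (Pool.Agent.TH942.card_basis (A := Points a b) hg).trans (Fintype.card_fin r)
  have hQ := Pool.Agent.X287.NF.R_log hΔ' hg
  have hfin : ∀ ρ' Y : ℝ, (pairs a b ρ' Y).Finite := fun ρ' Y => E.finS _
  have hS : ∀ ρ ρ' Y : ℝ, S a b ρ ρ' Y =
      -Pool.Agent.TH942.ES.StE (NN a b) (Pool.Agent.TH942.ES.alV a b) ρ ρ' Y := by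
    intro ρ ρ' Y
    rw [S_eq, ContinuationFromFiniteSums.S_eq]
  have hZ : ∀ ρ₀ : ℝ, ZeroFree a b ρ₀ ↔ ∃ G : ℂ → ℂ,
      Pool.Agent.X287.RS.Ext (NN a b) (Pool.Agent.TH942.ES.alV a b) ρ₀ G := fun ρ₀ =>
    Pool.Agent.X287.NF.zf_iff (a := a) (b := b) ρ₀
  refine ⟨hfin, fun T => ?_, m, A, (Pool.Agent.X287.NF.lead_iff h0 m A).2 hA,
    fun t ht ρ₀ h => ?_⟩
  · have h1 := Pool.Agent.TH942.sfinite_ht (K := K) (a := (a : K)) (b := (b : K)) T
    refine h1.subset fun P hP => ?_
    have h3 : height P = Pool.Agent.TH942.sht (K := K) (a := (a : K)) (b := (b : K)) P := by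
      have h4 := RegulatorFree.height_eq (K := K) (a := (a : K)) (b := (b : K)) P
      cases P with
      | zero => exact h4
      | some x y h => exact h4
    exact h3.symm.trans_le hP
  · simp only [hS, hZ, hrank, R_eq]
    exact ⟨Pool.Agent.X287.RS.cont_slow E hreal H hA h ht,
      fun r => (Pool.Agent.X287.RS.order_one E hreal H hA h ht r).symm,
      Pool.Agent.X287.RS.rank_le E hreal H hA h ht hQ,
      Pool.Agent.X287.RS.rank_eq E hreal H hA h ht hQ⟩

end Pool.Agent.Results.MP_1a91b9_nt.OneSidedEveryField
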