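import Pool.Agent.W187.UR.NF

/-!
# The conjecture of Birch and Swinnerton-Dyer over every number field as a statement about point counts

`K` is any number field and `E` any elliptic curve over `K`. The only hypothesis is that the
`L`-series of `E` (Mathlib's, the full Euler product over all finite places, bad ones included)
has a continuation `F` which is meromorphic at the real points of `[1, 2]`. (This is a part of the
question; it is known if `K` is totally real or CM.) Nothing is assumed on the zeros and poles of `F`.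

For real `γ > π / 2` and `T > 0` put

`S_γ(T) = ∑_v ∑_{k ≥ 1} - (α_v ^ k + β_v ^ k) q_v ^ (i k γ / T) / (k q_v ^ k Γ(1 + k log q_v / T))`,

an absolutely convergent series over the finite places `v` of `K`, where the local polynomial of `E`
at `v` is `(1 - α_v X) (1 - β_v X)`; for good `v` one has
`- (α_v ^ k + β_v ^ k) = #E(𝔽_q) - q - 1`, `q = q_v ^ k`. So `exp S_γ(T)` is a smoothed and rotated form
of the product of the `#E(k_v) / q_v`, `q_v ≤ e ^ T`, of Birch and Swinnerton-Dyer.

Theorem. Let `m` be the order of `F` at `1` and `l` its leading coefficient. Then `l` is real and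

`S_γ(T) = m (log T - Λ_γ) - log |l| + π i e + O(1 / T)`,

where `e` is the number of the real zeros `> 1` minus the number of the real poles `> 1` of `F`, and
`Λ_γ = ∫_0^∞ (e^{-t} - e^{iγt} / Γ(1 + t)) dt / t`. Consequently, for every `γ > π / 2`:

* `ord_{s=1} L(E/K, s) = rank E(K)` if and only if `Re S_γ(T) / log T → rank E(K)`;
* for all `r` and all real `B ≠ 0` (for instance `r` the rank and `B` the number
  `#Ш Reg Ω ∏ c_v / (√|Δ_K| #E(K)_tors²)` of the conjecture): `F` has order `r` and leading coefficient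
  `B` at `1` if and only if `exp S_γ(T) / T ^ r → exp(- r Λ_γ) / B`.

With the sharp cut-off `q_v ≤ e ^ T` such an asymptotic formula implies the Riemann hypothesis for
`L(E/K, s)` (Goldfeld 1982 for `K = ℚ`), and smoothed forms with a positive weight still fail as soon
as there is a real zero `> 1`. Here there is no condition on zeros, real or complex, and no
continuation beyond a neighbourhood of the segment `[1, 2]` is used.

Proof: `e^{iγt} / Γ(1 + t)` is a contour integral of `exp (exp z) e^{-t (z - iγ)}` along the boundary of a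
half strip; for `γ > π / 2` the part of the contour where `exp (exp z)` is not extremely small
remains below the real axis, on which the zeros and poles of `F` are (the thin region below
`[1, 2]` is free of them for large `T`). See `Pool.Agent.W187.UR` and `Pool.Agent.W189.LC`.
-/

set_option autoImplicit false

open IsDedekindDomain NumberField Filter Topology

namespace Pool.Agent.Results.MP_1a91b9_nt.RotatedFormulaEveryField

variable {K : Type} [Field K] [NumberField K]

/-- `F` is a continuation of the `L`-series of `E` from `Re s > 2` along the real axis to `s = 1`,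
which is meromorphic at every real point of `[1, 2]`. -/
def IsContinuation (E : WeierstrassCurve K) (F : ℂ → ℂ) : Prop :=
  (∀ x : ℝ, 1 ≤ x → x ≤ 2 → MeromorphicAt F (x : ℂ)) ∧ ∀ s : ℂ, 2 < s.re → F s = E.LSeries s

/-- The local polynomial `1 - a_v X + e_v X²` of `E` at `v` (Mathlib): `a_v = q_v + 1 - #E(k_v)` and
`e_v = q_v` for a minimal model with good reduction at `v`, and `e_v = 0` and `a_v = 1`, `-1`, `0` for
split multiplicative, non-split multiplicative, additive reduction. -/
noncomputable def localPoly (E : WeierstrassCurve K) (v : HeightOneSpectrum (𝓞 K)) :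
    Polynomial ℤ :=
  (E.baseChange (v.adicCompletion K)).localPolynomial (v.adicCompletionIntegers K)

/-- The power sums `α ^ n + β ^ n` for a polynomial `1 - a X + e X² = (1 - α X) (1 - β X)`, by the
recursion. -/
def powerSum (P : Polynomial ℤ) : ℕ → ℤ
  | 0 => 2
  | 1 => -P.coeff 1
  | n + 2 => -P.coeff 1 * powerSum P (n + 1) - P.coeff 2 * powerSum P n

/-- `q_v`, the number of elements of the residue field -/
noncomputable def q (v : HeightOneSpectrum (𝓞 K)) : ℝ := (Ideal.absNorm v.asIdeal : ℝ)

/-- The term of `v` and `k = x.2 + 1`: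
`- (α_v ^ k + β_v ^ k) q_v ^ (i k γ / T) / (k q_v ^ k Γ(1 + k log q_v / T))`. -/
noncomputable def term (E : WeierstrassCurve K) (γ T : ℝ) (x : HeightOneSpectrum (𝓞 K) × ℕ) : ℂ :=
  -(powerSum (localPoly E x.1) (x.2 + 1) : ℂ) *
    Complex.exp (γ * ((x.2 + 1) * Real.log (q x.1) / T) * Complex.I) /
      (((x.2 + 1) * q x.1 ^ (x.2 + 1) * Real.Gamma (1 + (x.2 + 1) * Real.log (q x.1) / T) : ℝ) : ℂ)

/-- `S_γ(T)` -/
noncomputable def S (E : WeierstrassCurve K) (γ T : ℝ) : ℂ := ∑' x, term E γ T x

/-- `Λ_γ = ∫_0^∞ (e^{-t} - e^{iγt} / Γ(1 + t)) dt / t` -/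
noncomputable def Lambda (γ : ℝ) : ℂ := ∫ t in Set.Ioi (0 : ℝ),
  (Complex.exp (-(t : ℂ)) - Complex.exp ((γ * t : ℝ) * Complex.I) * ((Real.Gamma (1 + t))⁻¹ : ℝ)) / t

/-- the number of the real zeros `> 1` minus the number of the real poles `> 1`, with
multiplicities -/
noncomputable def excess (F : ℂ → ℂ) : ℤ :=
  ∑ᶠ σ ∈ Set.Ioi (1 : ℝ), (meromorphicOrderAt F (σ : ℂ)).untop₀

open Classical in
/-- the rank of the group `E(K)` -/
noncomputable def rank (E : WeierstrassCurve K) : ℕ := Module.finrank ℤ E.toAffine.Point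

theorem coeff_one (a e : ℤ) : (1 - Polynomial.C a * Polynomial.X + Polynomial.C e *
    Polynomial.X ^ 2 : Polynomial ℤ).coeff 1 = -a := by
  rw [Polynomial.coeff_add, Polynomial.coeff_sub, Polynomial.coeff_C_mul, Polynomial.coeff_C_mul,
    Polynomial.coeff_X_one, Polynomial.coeff_X_pow, Polynomial.coeff_one]
  norm_num

theorem coeff_two (a e : ℤ) : (1 - Polynomial.C a * Polynomial.X + Polynomial.C e *
    Polynomial.X ^ 2 : Polynomial ℤ).coeff 2 = e := by
  rw [Polynomial.coeff_add, Polynomial.coeff_sub, Polynomial.coeff_C_mul, Polynomial.coeff_C_mul,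
    Polynomial.coeff_X, Polynomial.coeff_X_pow, Polynomial.coeff_one]
  norm_num

theorem powerSum_eq (E : WeierstrassCurve K) (v : HeightOneSpectrum (𝓞 K)) (n : ℕ) :
    powerSum (localPoly E v) n = Pool.Agent.W189.LC.psum (Pool.Agent.W189.NF.aV E v)
      (Pool.Agent.W189.NF.eV E v) n := by
  have h := Pool.Agent.W189.NF.localPolynomial_eq (v.adicCompletionIntegers K)
    (E.baseChange (v.adicCompletion K))
  have h1 : (localPoly E v).coeff 1 = -Pool.Agent.W189.NF.aV E v := by
    unfold localPoly
    rw [h]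
    exact coeff_one _ _
  have h2 : (localPoly E v).coeff 2 = Pool.Agent.W189.NF.eV E v := by
    unfold localPoly
    rw [h]
    exact coeff_two _ _
  induction n using Nat.twoStepInduction with
  | zero => simp [powerSum, Pool.Agent.W189.LC.psum]
  | one => simp [powerSum, Pool.Agent.W189.LC.psum, h1]
  | more n ih1 ih2 =>
    simp only [powerSum, Pool.Agent.W189.LC.psum]
    rw [ih1, ih2, h1, h2]
    ring

theorem term_eq (E : WeierstrassCurve K) (γ T : ℝ) (x : HeightOneSpectrum (𝓞 K) × ℕ) :
    term E γ T x = Pool.Agent.W187.UR.rTerm E γ T x := by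
  unfold term Pool.Agent.W187.UR.rTerm Pool.Agent.W189.NF.bsTerm q
  rw [powerSum_eq]
  push_cast
  ring

theorem S_eq (E : WeierstrassCurve K) (γ T : ℝ) : S E γ T = Pool.Agent.W187.UR.rSum E γ T :=
  tsum_congr fun x => term_eq E γ T x

/-- **The rotated Birch and Swinnerton-Dyer sums over every number field.** -/
theorem result (K : Type) [Field K] [NumberField K] (E : WeierstrassCurve K) [E.IsElliptic]
    (F : ℂ → ℂ) (hF : IsContinuation E F) (γ : ℝ) (hγ : Real.pi / 2 < γ) :
    (∀ T : ℝ, 0 < T → Summable fun x => ‖term E γ T x‖) ∧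
    MeasureTheory.IntegrableOn (fun t : ℝ => (Complex.exp (-(t : ℂ)) -
      Complex.exp ((γ * t : ℝ) * Complex.I) * ((Real.Gamma (1 + t))⁻¹ : ℝ)) / t)
      (Set.Ioi (0 : ℝ)) ∧
    {σ : ℝ | 1 < σ ∧ meromorphicOrderAt F (σ : ℂ) ≠ 0}.Finite ∧
    (∃ (m : ℤ) (l : ℝ), meromorphicOrderAt F 1 = m ∧ meromorphicTrailingCoeffAt F 1 = l ∧ l ≠ 0 ∧
      (fun T : ℝ => S E γ T - (m * (Real.log T - Lambda γ) - Real.log |l| +
        Real.pi * excess F * Complex.I)) =O[atTop] (fun T : ℝ => 1 / T)) ∧
    (meromorphicOrderAt F 1 = ((rank E : ℤ) : WithTop ℤ) ↔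
      Tendsto (fun T : ℝ => (S E γ T).re / Real.log T) atTop
        (𝓝 (rank E : ℝ))) ∧
    ∀ (r : ℕ) (B : ℝ), B ≠ 0 →
      ((meromorphicOrderAt F 1 = ((r : ℤ) : WithTop ℤ) ∧ meromorphicTrailingCoeffAt F 1 = B) ↔
        Tendsto (fun T : ℝ => Complex.exp (S E γ T) / (T : ℂ) ^ r) atTop
          (𝓝 (Complex.exp (-(r * Lambda γ)) / B))) := by
  have hF' : Pool.Agent.W189.NF.IsCont E F := hF
  have hS : ∀ T : ℝ, S E γ T = Pool.Agent.W187.UR.rSum E γ T := fun T => S_eq E γ T
  obtain ⟨m, l, hm, hl, hl0, hO, -⟩ := Pool.Agent.W187.UR.nf_rot hF' hγ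
  have hO' : (fun T : ℝ => S E γ T - (m * (Real.log T - Lambda γ) - Real.log |l| +
        Real.pi * excess F * Complex.I)) =O[atTop] (fun T : ℝ => 1 / T) := by
    refine hO.congr_left fun T => ?_
    rw [hS]
    rfl
  -- the ratio
  have hlim : Tendsto (fun T : ℝ => (S E γ T).re / Real.log T) atTop (𝓝 (m : ℝ)) := by
    have h1 : Tendsto (fun T : ℝ => S E γ T - (m * (Real.log T - Lambda γ) - Real.log |l| +
        Real.pi * excess F * Complex.I)) atTop (𝓝 0) :=
      hO'.trans_tendsto (tendsto_const_nhds.div_atTop tendsto_id)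
    have h2 : Tendsto (fun T : ℝ => (S E γ T - (m * (Real.log T - Lambda γ) - Real.log |l| +
        Real.pi * excess F * Complex.I)).re) atTop (𝓝 0) := by
      have h := (Complex.continuous_re.tendsto 0).comp h1
      rw [Complex.zero_re] at h
      exact h
    have h3 : Tendsto (fun T : ℝ => ((S E γ T - (m * (Real.log T - Lambda γ) - Real.log |l| +
        Real.pi * excess F * Complex.I)).re + (-(m * (Lambda γ).re) - Real.log |l|)) / Real.log T)
        atTop (𝓝 0) :=
      (h2.add_const _).div_atTop Real.tendsto_log_atTop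
    have h4 : Tendsto (fun T : ℝ => (m : ℝ) + ((S E γ T - (m * (Real.log T - Lambda γ) -
        Real.log |l| + Real.pi * excess F * Complex.I)).re +
        (-(m * (Lambda γ).re) - Real.log |l|)) / Real.log T) atTop (𝓝 ((m : ℝ) + 0)) :=
      tendsto_const_nhds.add h3
    rw [add_zero] at h4
    refine h4.congr' ?_
    filter_upwards [eventually_gt_atTop (1 : ℝ)] with T hT
    have hlog : 0 < Real.log T := Real.log_pos hT
    have e1 : (S E γ T - (m * (Real.log T - Lambda γ) - Real.log |l| +
        Real.pi * excess F * Complex.I)).re =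
        (S E γ T).re - (m * (Real.log T - (Lambda γ).re) - Real.log |l|) := by
      simp
    rw [e1]
    field_simp
    ring
  refine ⟨fun T hT => ?_, Pool.Agent.W351.UR.cq_int γ, ?_, ⟨m, l, hm, hl, hl0, hO'⟩, ?_, ?_⟩
  · refine (Pool.Agent.W189.NF.bsTerm_summable E hT).congr fun x => ?_
    rw [term_eq, Pool.Agent.W187.UR.norm_rTerm]
  · have E' := Pool.Agent.W189.NF.nfEP E
    have D := E'.mdata hF'.mero hF'.prod
    have h1 := D.finite_zeros
    refine (h1.image fun x => 1 + x).subset ?_
    rintro σ ⟨hσ1, hσ⟩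
    refine ⟨σ - 1, ⟨⟨by linarith, ?_⟩, ?_⟩, by ring⟩
    · by_contra h2
      push Not at h2
      exact hσ (E'.order_right hF'.mero hF'.prod (by linarith))
    · rw [Pool.Agent.W189.LC.order_shift]
      have e : 1 + (σ - 1) = σ := by ring
      rw [e]
      exact hσ
  · rw [hm]
    generalize rank E = r
    constructor
    · intro h
      have h2 : m = (r : ℤ) := by exact_mod_cast h
      rw [h2] at hlim
      simpa using hlim
    · intro h
      have h2 := tendsto_nhds_unique hlim h
      have h3 : m = (r : ℤ) := by exact_mod_cast h2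
      rw [h3]
  · intro r B hB
    rw [Pool.Agent.W187.UR.nf_iff hF' hγ r hB]
    simp only [hS]
    rfl

end Pool.Agent.Results.MP_1a91b9_nt.RotatedFormulaEveryField
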